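import Pool.Agent.L5helper45.OS.Num

set_option autoImplicit false

/-! # Ostrowski numeration: decay of the exponential sums of the sum of digits -/

namespace Pool.Agent.L5helper45.OS

open Finset Filter
open Pool.Agent.H469R2.NK (e norm_e e_add)

section Den

variable {a q : ℕ → ℕ} (ha : ∀ k, 1 ≤ a k) (hq0 : q 0 = 1) (hq1 : q 1 = a 0)
  (hq : ∀ k, q (k + 2) = a (k + 1) * q (k + 1) + q k)

include ha hq0 hq1 hq

lemma T_triv (ω : ℂ) (hω : ‖ω‖ = 1) (θ : ℝ) (k : ℕ) :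
    ‖∑ n ∈ range (q k), ω ^ sd q n * e (n * θ)‖ / q k ≤ 1 := by
  have hp := q_pos ha hq0 hq1 hq k
  have hp' : (0 : ℝ) < q k := by exact_mod_cast hp
  rw [div_le_one hp']
  refine (norm_sum_le _ _).trans ?_
  have : ∑ n ∈ range (q k), ‖ω ^ sd q n * e (n * θ)‖ = ∑ n ∈ range (q k), (1 : ℝ) := by
    refine sum_congr rfl fun n _ => ?_
    rw [norm_mul, norm_pow, hω, one_pow, norm_e, one_mul]
  rw [this]
  simp

/-- constants for the decay -/
lemma decay_consts (ω : ℂ) (hω : ‖ω‖ = 1) (K : ℕ) : ∃ ν : ℝ, 1 / 2 ≤ ν ∧ ν < 1 ∧ ∀ θ : ℝ,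
    ∀ T : ℕ → ℂ, (∀ k, T k = ∑ n ∈ range (q k), ω ^ sd q n * e (n * θ)) →
    ∀ k : ℕ, max (‖T (k + 2)‖ / q (k + 2)) (‖T (k + 1)‖ / q (k + 1)) ≤
        max (‖T (k + 1)‖ / q (k + 1)) (‖T k‖ / q k) ∧
      ((∀ j < 4, a (k + 1 + j) ≤ K) → ω ^ a (k + 1 + 2) ≠ 1 →
        max (‖T (k + 6)‖ / q (k + 6)) (‖T (k + 5)‖ / q (k + 5)) ≤
        ν * max (‖T (k + 1)‖ / q (k + 1)) (‖T k‖ / q k)) := by
  obtain ⟨μ, hμ0, hμ1, hμ⟩ := all_words ω hω K
  refine ⟨(1 + μ) / 2, by linarith, by linarith, ?_⟩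
  intro θ T hT
  -- the states
  set p : ℕ → St := fun k => (T (k + 1) / q (k + 1), T k / q k, e (q (k + 1) * θ), e (q k * θ),
      (q k : ℝ) / q (k + 1)) with hp
  have hstep : ∀ k, st ω (a (k + 1)) (p k) = p (k + 1) := fun k =>
    state_step ha hq0 hq1 hq ω θ T hT k
  have hr : ∀ k, (0 : ℝ) < q k := fun k => by exact_mod_cast q_pos ha hq0 hq1 hq k
  have hn : ∀ k, ‖T k / (q k : ℂ)‖ = ‖T k‖ / q k := fun k => by
    rw [norm_div, Complex.norm_natCast]
  have ht : ∀ k, ‖T k‖ / q k ≤ 1 := fun k => by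
    rw [hT k]
    exact T_triv ha hq0 hq1 hq ω hω θ k
  have hK : ∀ k, p k ∈ KK := by
    intro k
    refine ⟨?_, ?_, norm_e _, norm_e _, ?_, ?_⟩
    · show ‖T (k + 1) / (q (k + 1) : ℂ)‖ ≤ 1
      rw [hn]; exact ht _
    · show ‖T k / (q k : ℂ)‖ ≤ 1
      rw [hn]; exact ht _
    · show (0 : ℝ) ≤ (q k : ℝ) / q (k + 1)
      have := hr k
      have := hr (k + 1)
      positivity
    · show (q k : ℝ) / q (k + 1) ≤ 1
      rw [div_le_one (hr _)]
      exact_mod_cast q_le ha hq0 hq1 hq k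
  -- one step
  have hone : ∀ k, ‖T (k + 2)‖ / q (k + 2) ≤ (a (k + 1) * (‖T (k + 1)‖ / q (k + 1)) +
      ((q k : ℝ) / q (k + 1)) * (‖T k‖ / q k)) / (a (k + 1) + (q k : ℝ) / q (k + 1)) := by
    intro k
    have h1 := st_fst_le ω hω (a (k + 1)) (ha _) (p k) (hK k)
    rw [hstep k] at h1
    have h2 : |(p k).2.2.2.2| = (q k : ℝ) / q (k + 1) := by
      show |(q k : ℝ) / q (k + 1)| = _
      exact abs_of_nonneg (by have := hr k; have := hr (k + 1); positivity)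
    rw [h2] at h1
    have h3 : ‖(p (k + 1)).1‖ = ‖T (k + 2)‖ / q (k + 2) := hn (k + 2)
    have h4 : ‖(p k).1‖ = ‖T (k + 1)‖ / q (k + 1) := hn (k + 1)
    have h5 : ‖(p k).2.1‖ = ‖T k‖ / q k := hn k
    rw [h3, h4, h5] at h1
    exact h1
  have har : ∀ k, (1 : ℝ) ≤ a k := fun k => by exact_mod_cast ha k
  have hρ0 : ∀ k, (0 : ℝ) ≤ (q k : ℝ) / q (k + 1) := fun k => by
    have := hr k
    have := hr (k + 1)
    positivity
  have hρ1 : ∀ k, (q k : ℝ) / q (k + 1) ≤ 1 := fun k => by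
    rw [div_le_one (hr _)]
    exact_mod_cast q_le ha hq0 hq1 hq k
  have hmono : ∀ k, ‖T (k + 2)‖ / q (k + 2) ≤ max (‖T (k + 1)‖ / q (k + 1)) (‖T k‖ / q k) := by
    intro k
    refine (hone k).trans ?_
    rw [div_le_iff₀ (by have := har (k + 1); have := hρ0 k; linarith)]
    have h1 := mul_le_mul_of_nonneg_left (le_max_left (‖T (k + 1)‖ / q (k + 1)) (‖T k‖ / q k))
      (by linarith [har (k + 1)] : (0 : ℝ) ≤ a (k + 1))
    have h2 := mul_le_mul_of_nonneg_left (le_max_right (‖T (k + 1)‖ / q (k + 1)) (‖T k‖ / q k))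
      (hρ0 k)
    linarith
  have hmax : ∀ k, max (‖T (k + 2)‖ / q (k + 2)) (‖T (k + 1)‖ / q (k + 1)) ≤
        max (‖T (k + 1)‖ / q (k + 1)) (‖T k‖ / q k) := fun k =>
    max_le (hmono k) (le_max_left _ _)
  intro k
  refine ⟨hmax k, ?_⟩
  intro hKa hne
  set m := max (‖T (k + 1)‖ / q (k + 1)) (‖T k‖ / q k) with hm
  have hm0 : 0 ≤ m := le_trans (div_nonneg (norm_nonneg _) (hr _).le) (le_max_left _ _)
  have h4 : ‖T (k + 5)‖ / q (k + 5) ≤ μ * m := by
    have h1 := hμ (a (k + 1)) (a (k + 2)) (a (k + 3)) (a (k + 4)) (ha _) (hKa 0 (by omega)) (ha _)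
      (hKa 1 (by omega)) (ha _) (hKa 2 (by omega)) (ha _) (hKa 3 (by omega)) hne (p k) (hK k) m hm0
      (by
        have : ‖(p k).1‖ = ‖T (k + 1)‖ / q (k + 1) := hn (k + 1)
        rw [this]; exact le_max_left _ _)
      (by
        have : ‖(p k).2.1‖ = ‖T k‖ / q k := hn k
        rw [this]; exact le_max_right _ _)
    unfold st4 at h1
    rw [hstep k, hstep (k + 1), hstep (k + 2), hstep (k + 3)] at h1
    have h2 : ‖(p (k + 3 + 1)).1‖ = ‖T (k + 5)‖ / q (k + 5) := hn (k + 5)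
    rw [h2] at h1
    exact h1
  have h3 : ‖T (k + 4)‖ / q (k + 4) ≤ m :=
    (le_max_left _ _).trans ((hmax (k + 2)).trans ((hmax (k + 1)).trans (hmax k)))
  apply max_le
  · refine (hone (k + 4)).trans ?_
    have b1 := har (k + 4 + 1)
    have b2 := hρ0 (k + 4)
    have b3 := hρ1 (k + 4)
    set A : ℝ := (a (k + 4 + 1) : ℝ)
    set r : ℝ := (q (k + 4) : ℝ) / q (k + 4 + 1)
    rw [div_le_iff₀ (by linarith)]
    have c1 : A * (‖T (k + 4 + 1)‖ / q (k + 4 + 1)) ≤ A * (μ * m) :=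
      mul_le_mul_of_nonneg_left h4 (by linarith)
    have c2 : r * (‖T (k + 4)‖ / q (k + 4)) ≤ r * m := mul_le_mul_of_nonneg_left h3 b2
    have c3 : A * (μ * m) + r * m ≤ (1 + μ) / 2 * m * (A + r) := by
      have : 0 ≤ (1 - μ) * m * (A - r) := mul_nonneg (mul_nonneg (by linarith) hm0) (by linarith)
      nlinarith
    linarith
  · calc ‖T (k + 5)‖ / q (k + 5) ≤ μ * m := h4
      _ ≤ (1 + μ) / 2 * m := mul_le_mul_of_nonneg_right (by linarith) hm0

/-- the decay -/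
lemma decay_pow (ω : ℂ) (hω : ‖ω‖ = 1) (K : ℕ) : ∃ ν : ℝ, 1 / 2 ≤ ν ∧ ν < 1 ∧
    ∀ (g : ℕ → Prop) [DecidablePred g], (∀ i, g i → (∀ j < 4, a (i + j) ≤ K) ∧ ω ^ a (i + 2) ≠ 1) →
    ∀ (θ : ℝ) (k : ℕ),
    (‖∑ n ∈ range (q (k + 5)), ω ^ sd q n * e (n * θ)‖ / q (k + 5)) ^ 5 ≤
      ν ^ ((range k).filter (fun i => g (i + 1))).card := by
  obtain ⟨ν, hν0, hν1, hν⟩ := decay_consts ha hq0 hq1 hq ω hω K
  refine ⟨ν, hν0, hν1, ?_⟩
  intro g _ hgd θ
  set T : ℕ → ℂ := fun k => ∑ n ∈ range (q k), ω ^ sd q n * e (n * θ) with hT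
  have h := hν θ T (fun k => rfl)
  set M : ℕ → ℝ := fun k => max (‖T (k + 1)‖ / q (k + 1)) (‖T k‖ / q k) with hM
  have hM0 : ∀ k, 0 ≤ M k := fun k => le_trans (div_nonneg (norm_nonneg _) (Nat.cast_nonneg _))
    (le_max_left _ _)
  have hM1 : ∀ k, M k ≤ 1 := fun k => max_le (T_triv ha hq0 hq1 hq ω hω θ _)
    (T_triv ha hq0 hq1 hq ω hω θ _)
  have hanti : Antitone M := antitone_nat_of_succ_le fun k => (h k).1
  have hgood : ∀ k, g (k + 1) → M (k + 5) ≤ ν * M k :=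
    fun k h1 => (h k).2 (hgd _ h1).1 (hgd _ h1).2
  have hP : ∀ k, ∏ j ∈ range 5, M (k + j) ≤
      ν ^ ((range k).filter (fun i => g (i + 1))).card := by
    intro k
    induction k with
    | zero =>
      simp only [range_zero, filter_empty, card_empty, pow_zero]
      exact prod_le_one (fun j _ => hM0 _) (fun j _ => hM1 _)
    | succ k ih =>
      have e1 : ∏ j ∈ range 5, M (k + 1 + j) = (∏ j ∈ range 4, M (k + 1 + j)) * M (k + 5) := by
        rw [prod_range_succ]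
      have e2 : ∏ j ∈ range 5, M (k + j) = (∏ j ∈ range 4, M (k + 1 + j)) * M k := by
        rw [prod_range_succ', add_zero]
        have : ∀ j ∈ range 4, M (k + (j + 1)) = M (k + 1 + j) := fun j _ => by
          rw [show k + (j + 1) = k + 1 + j by ring]
        rw [prod_congr rfl this]
      have e3 : 0 ≤ ∏ j ∈ range 4, M (k + 1 + j) := prod_nonneg fun j _ => hM0 _
      have e4 : range (k + 1) = insert k (range k) := range_add_one
      by_cases hg : g (k + 1)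
      · have e5 : ((range (k + 1)).filter (fun i => g (i + 1))).card =
            ((range k).filter (fun i => g (i + 1))).card + 1 := by
          rw [e4, filter_insert, if_pos hg, card_insert_of_notMem (by simp)]
        rw [e5, pow_succ]
        calc ∏ j ∈ range 5, M (k + 1 + j) = (∏ j ∈ range 4, M (k + 1 + j)) * M (k + 5) := e1
          _ ≤ (∏ j ∈ range 4, M (k + 1 + j)) * (ν * M k) :=
              mul_le_mul_of_nonneg_left (hgood k hg) e3
          _ = (∏ j ∈ range 5, M (k + j)) * ν := by rw [e2]; ring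
          _ ≤ _ := mul_le_mul_of_nonneg_right ih (by linarith)
      · have e5 : ((range (k + 1)).filter (fun i => g (i + 1))).card =
            ((range k).filter (fun i => g (i + 1))).card := by
          rw [e4, filter_insert, if_neg hg]
        rw [e5]
        calc ∏ j ∈ range 5, M (k + 1 + j) = (∏ j ∈ range 4, M (k + 1 + j)) * M (k + 5) := e1
          _ ≤ (∏ j ∈ range 4, M (k + 1 + j)) * M k :=
              mul_le_mul_of_nonneg_left (hanti (by omega)) e3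
          _ = ∏ j ∈ range 5, M (k + j) := by rw [e2]
          _ ≤ _ := ih
  intro k
  have h1 : (‖T (k + 5)‖ / q (k + 5)) ^ 5 ≤ ∏ j ∈ range 5, M (k + j) := by
    have h2 : ∀ j ∈ range 5, ‖T (k + 5)‖ / q (k + 5) ≤ M (k + j) := by
      intro j hj
      have hj' := mem_range.1 hj
      calc ‖T (k + 5)‖ / q (k + 5) ≤ M (k + 4) := le_max_left _ _
        _ ≤ M (k + j) := hanti (by omega)
    calc (‖T (k + 5)‖ / q (k + 5)) ^ 5 = ∏ j ∈ range 5, ‖T (k + 5)‖ / q (k + 5) := by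
          rw [prod_const, card_range]
      _ ≤ _ := prod_le_prod (fun j _ => div_nonneg (norm_nonneg _) (Nat.cast_nonneg _)) h2
  exact h1.trans (hP k)

/-- the power saving -/
theorem power (ω : ℂ) (hω : ‖ω‖ = 1) (K : ℕ) (C c : ℝ) (hc : 0 < c) (hC1 : 1 < C)
    (hC : ∀ᶠ k : ℕ in atTop, (q k : ℝ) ≤ C ^ k) (g : ℕ → Prop) [DecidablePred g]
    (hgd : ∀ i, g i → (∀ j < 4, a (i + j) ≤ K) ∧ ω ^ a (i + 2) ≠ 1)
    (hg : ∀ᶠ k : ℕ in atTop, c * k ≤ ((range k).filter g).card) :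
    ∃ δ : ℝ, 0 < δ ∧ δ ≤ 1 ∧ ∀ᶠ k : ℕ in atTop, ∀ θ : ℝ,
      ‖∑ n ∈ range (q k), ω ^ sd q n * e (n * θ)‖ ≤ (q k : ℝ) ^ (1 - δ) := by
  obtain ⟨ν, hν0, hν1, hν⟩ := decay_pow ha hq0 hq1 hq ω hω K
  have hν00 : 0 < ν := by linarith
  have hlC : 0 < Real.log C := Real.log_pos hC1
  have hlν : Real.log ν < 0 := Real.log_neg hν00 hν1
  set δ₀ : ℝ := c * (-Real.log ν) / (10 * Real.log C) with hδ₀
  have hδ₀p : 0 < δ₀ := by
    have : 0 < -Real.log ν := by linarith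
    positivity
  set δ : ℝ := min δ₀ 1 with hδ
  have hδp : 0 < δ := lt_min hδ₀p one_pos
  refine ⟨δ, hδp, min_le_right _ _, ?_⟩
  have hsh : Tendsto (fun k : ℕ => k - 5) atTop atTop := tendsto_sub_atTop_nat 5
  filter_upwards [hC, hsh.eventually hg, eventually_ge_atTop 10,
    (tendsto_natCast_atTop_atTop (R := ℝ)).eventually_ge_atTop (2 * (5 + 1 / c))]
    with k hCk hgk hk10 hkc
  intro θ
  have hkr : (0 : ℝ) < k := by
    have : 0 < k := by omega
    exact_mod_cast this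
  have hq1' : (1 : ℝ) ≤ q k := by exact_mod_cast q_pos ha hq0 hq1 hq k
  have hqp : (0 : ℝ) < q k := by linarith
  -- the number of good places
  have hcard : c * k / 2 ≤ ((range (k - 5)).filter (fun i => g (i + 1))).card := by
    have h1 : ((range (k - 5)).filter g).card ≤
        ((range (k - 5)).filter (fun i => g (i + 1))).card + 1 := by
      have h2 : (range (k - 5)).filter g ⊆
          insert 0 (((range (k - 5)).filter (fun i => g (i + 1))).image (fun i => i + 1)) := by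
        intro i hi
        rw [mem_filter, mem_range] at hi
        rcases i with _ | i
        · exact mem_insert_self _ _
        · apply mem_insert_of_mem
          rw [mem_image]
          exact ⟨i, by rw [mem_filter, mem_range]; exact ⟨by omega, hi.2⟩, rfl⟩
      calc _ ≤ _ := card_le_card h2
        _ ≤ (((range (k - 5)).filter (fun i => g (i + 1))).image (fun i => i + 1)).card + 1 :=
            card_insert_le _ _
        _ ≤ _ := Nat.add_le_add_right card_image_le 1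
    have h3 : (((range (k - 5)).filter g).card : ℝ) ≤
        ((range (k - 5)).filter (fun i => g (i + 1))).card + 1 := by exact_mod_cast h1
    have h4 : ((k - 5 : ℕ) : ℝ) = k - 5 := by
      rw [Nat.cast_sub (by omega)]
      norm_num
    rw [h4] at hgk
    have h5 : 5 * c + 1 ≤ c * k / 2 := by
      have h6 : c * (2 * (5 + 1 / c)) ≤ c * k := mul_le_mul_of_nonneg_left hkc hc.le
      have h7 : c * (2 * (5 + 1 / c)) = 2 * (5 * c + 1) := by field_simp
      linarith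
    linarith
  obtain ⟨k', rfl⟩ : ∃ k', k = k' + 5 := ⟨k - 5, by omega⟩
  have hmain := hν g hgd θ k'
  have hk5 : k' + 5 - 5 = k' := by omega
  rw [hk5] at hcard
  set G : ℕ := ((range k').filter (fun i => g (i + 1))).card with hG
  set t : ℝ := ‖∑ n ∈ range (q (k' + 5)), ω ^ sd q n * e (n * θ)‖ / q (k' + 5) with ht
  have ht0 : 0 ≤ t := div_nonneg (norm_nonneg _) hqp.le
  -- t ≤ ν ^ (c k / 10)
  have h1 : t ≤ ν ^ (c * ((k' + 5 : ℕ) : ℝ) / 10) := by
    have h2 : t ^ 5 ≤ (ν ^ (c * ((k' + 5 : ℕ) : ℝ) / 10)) ^ 5 := by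
      refine hmain.trans ?_
      rw [← Real.rpow_natCast ν G, ← Real.rpow_natCast (ν ^ (c * ((k' + 5 : ℕ) : ℝ) / 10)) 5,
        ← Real.rpow_mul hν00.le]
      apply Real.rpow_le_rpow_of_exponent_ge hν00 hν1.le
      push_cast at hcard ⊢
      linarith
    exact (pow_le_pow_iff_left₀ ht0 (by positivity) (by norm_num)).1 h2
  have h3 : ν ^ (c * ((k' + 5 : ℕ) : ℝ) / 10) ≤ (q (k' + 5) : ℝ) ^ (-δ) := by
    have h4 : ((q (k' + 5) : ℝ)) ^ δ ≤ (C ^ (k' + 5)) ^ δ₀ := by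
      calc ((q (k' + 5) : ℝ)) ^ δ ≤ ((q (k' + 5) : ℝ)) ^ δ₀ :=
            Real.rpow_le_rpow_of_exponent_le hq1' (min_le_left _ _)
        _ ≤ _ := Real.rpow_le_rpow hqp.le hCk hδ₀p.le
    have h5 : (C ^ (k' + 5)) ^ δ₀ * ν ^ (c * ((k' + 5 : ℕ) : ℝ) / 10) = 1 := by
      rw [← Real.rpow_natCast, ← Real.rpow_mul (by linarith),
        Real.rpow_def_of_pos (by linarith : (0 : ℝ) < C), Real.rpow_def_of_pos hν00, ← Real.exp_add]
      rw [Real.exp_eq_one_iff]
      rw [hδ₀]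
      field_simp
      ring
    have h6 : 0 < (q (k' + 5) : ℝ) ^ δ := Real.rpow_pos_of_pos hqp _
    have h8 : 0 < ν ^ (c * ((k' + 5 : ℕ) : ℝ) / 10) := Real.rpow_pos_of_pos hν00 _
    rw [Real.rpow_neg hqp.le, ← one_div, le_div_iff₀ h6]
    calc _ ≤ ν ^ (c * ((k' + 5 : ℕ) : ℝ) / 10) * (C ^ (k' + 5)) ^ δ₀ :=
          mul_le_mul_of_nonneg_left h4 h8.le
      _ = 1 := by rw [mul_comm]; exact h5
  have h7 : ‖∑ n ∈ range (q (k' + 5)), ω ^ sd q n * e (n * θ)‖ = t * q (k' + 5) := by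
    rw [ht, div_mul_cancel₀ _ hqp.ne']
  rw [h7]
  calc t * q (k' + 5) ≤ (q (k' + 5) : ℝ) ^ (-δ) * q (k' + 5) :=
        mul_le_mul_of_nonneg_right (h1.trans h3) hqp.le
    _ = _ := by
        rw [show (q (k' + 5) : ℝ) ^ (-δ) * q (k' + 5) =
          (q (k' + 5) : ℝ) ^ (-δ) * (q (k' + 5) : ℝ) ^ (1 : ℝ) by rw [Real.rpow_one],
          ← Real.rpow_add hqp]
        congr 1
        ring

end Den

end Pool.Agent.L5helper45.OS
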