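import Pool.Agent.L5helper45.OS.Decay
import Pool.Agent.L5helper45.MB.Abs
import Pool.Agent.L5helper45.MB.Blocks

set_option autoImplicit false

/-! # Record gaps around integers with prescribed Ostrowski sums of digits -/

namespace Pool.Agent.L5helper45.OS

open Finset Filter
open Pool.Agent.H469R2.NK (e norm_e e_add)
open Pool.Agent.TH915.PW (e_natmul e_int sum_char)
open Pool.Agent.W147.PS (ff ev_pow)

section Den

variable {a q : ℕ → ℕ} (ha : ∀ k, 1 ≤ a k) (hq0 : q 0 = 1) (hq1 : q 1 = a 0)
  (hq : ∀ k, q (k + 2) = a (k + 1) * q (k + 1) + q k)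

include ha hq0 hq1 hq

/-- starting points of blocks -/
lemma clean (k : ℕ) (L : ℕ) : k + 2 ≤ L → ∀ t, t + q (k + 2) ≤ q L → ∃ A, t ≤ A ∧
    A ≤ t + q (k + 2) ∧ A + q (k + 1) ≤ q L ∧ ∀ n < q (k + 1), sd q (A + n) = sd q A + sd q n := by
  induction L using Nat.strong_induction_on with
  | _ L ih =>
    intro hL t ht
    rcases Nat.eq_or_lt_of_le hL with h | h
    · subst h
      refine ⟨0, by omega, by omega, ?_, ?_⟩
      · have h9 : q (k + 1) ≤ q (k + 2) := q_le ha hq0 hq1 hq (k + 1)
        omega
      · intro n _
        have : sd q 0 = 0 := by rw [sd, dif_pos rfl]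
        rw [this, zero_add, zero_add]
    · obtain ⟨l, rfl⟩ : ∃ l, L = l + 2 := ⟨L - 2, by omega⟩
      have hl : k + 1 ≤ l := by omega
      have hQ := hq l
      have hQp := q_pos ha hq0 hq1 hq (l + 1)
      have hmk : q (k + 1) ≤ q l := q_mono ha hq0 hq1 hq hl
      have hmk2 : q (k + 2) ≤ q (l + 1) := q_mono ha hq0 hq1 hq (by omega)
      have hll : q l ≤ q (l + 1) := q_le ha hq0 hq1 hq l
      set Q := q (l + 1) with hQdef
      set d := t / Q with hd
      set t' := t % Q with ht'
      have htd : t = d * Q + t' := by
        rw [hd, ht', mul_comm]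
        exact (Nat.div_add_mod t Q).symm
      have ht'Q : t' < Q := Nat.mod_lt _ hQp
      have hqp2 := q_pos ha hq0 hq1 hq (k + 2)
      rcases Nat.lt_or_ge d (a (l + 1)) with hda | hda
      · have hd1 : (d + 1) * Q ≤ a (l + 1) * Q := Nat.mul_le_mul_right _ hda
        have hd2 : (d + 1) * Q = d * Q + Q := by ring
        rcases Nat.lt_or_ge Q (t' + q (k + 2)) with h1 | h1
        · -- take the next copy
          refine ⟨(d + 1) * Q, by omega, by omega, by omega, ?_⟩
          intro n hn
          have e1 := sd_mul ha hq0 hq1 hq (l + 1) (d + 1) n (by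
            rw [← hQdef, show l + 1 + 1 = l + 2 from rfl]
            omega)
          have e2 := sd_mul ha hq0 hq1 hq (l + 1) (d + 1) 0 (by
            rw [← hQdef, show l + 1 + 1 = l + 2 from rfl]
            have := q_pos ha hq0 hq1 hq l
            omega)
          have e3 : sd q 0 = 0 := by rw [sd, dif_pos rfl]
          rw [← hQdef] at e1 e2
          rw [add_zero, e3, add_zero] at e2
          rw [e1, e2]
        · obtain ⟨A, h2, h3, h4, h5⟩ := ih (l + 1) (by omega) (by omega) t' h1
          rw [← hQdef] at h4
          refine ⟨d * Q + A, by omega, by omega, by omega, ?_⟩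
          intro n hn
          have e1 := sd_mul ha hq0 hq1 hq (l + 1) d (A + n) (by
            rw [← hQdef, show l + 1 + 1 = l + 2 from rfl]
            omega)
          have e2 := sd_mul ha hq0 hq1 hq (l + 1) d A (by
            rw [← hQdef, show l + 1 + 1 = l + 2 from rfl]
            omega)
          rw [← hQdef] at e1 e2
          rw [add_assoc, e1, e2, h5 n hn, add_assoc]
      · -- the short copy
        have hda2 : d = a (l + 1) := by
          by_contra hne
          have h1 : a (l + 1) + 1 ≤ d := by omega
          have h2 : (a (l + 1) + 1) * Q ≤ d * Q := Nat.mul_le_mul_right _ h1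
          have h3 : (a (l + 1) + 1) * Q = a (l + 1) * Q + Q := by ring
          omega
        have h1 : t' + q (k + 2) ≤ q l := by
          rw [hda2] at htd
          omega
        have hl2 : k + 2 ≤ l := by
          by_contra hne
          have : l = k + 1 := by omega
          rw [this] at h1
          have := q_lt ha hq0 hq1 hq k
          omega
        obtain ⟨A, h2, h3, h4, h5⟩ := ih l (by omega) hl2 t' h1
        rw [hda2] at htd
        refine ⟨a (l + 1) * Q + A, by omega, by omega, by omega, ?_⟩
        intro n hn
        have e1 := sd_mul ha hq0 hq1 hq (l + 1) (a (l + 1)) (A + n) (by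
          rw [← hQdef, show l + 1 + 1 = l + 2 from rfl]
          omega)
        have e2 := sd_mul ha hq0 hq1 hq (l + 1) (a (l + 1)) A (by
          rw [← hQdef, show l + 1 + 1 = l + 2 from rfl]
          have := q_pos ha hq0 hq1 hq (k + 1)
          omega)
        rw [← hQdef] at e1 e2
        rw [add_assoc, e1, e2, h5 n hn, add_assoc]

/-- the digits -/
lemma digits (L : ℕ) : ∀ n < q L, ∃ d : ℕ → ℕ, (∀ i, L ≤ i → d i = 0) ∧ d 0 < a 0 ∧
    (∀ i, d i ≤ a i) ∧ (∀ i, d (i + 1) = a (i + 1) → d i = 0) ∧
    n = ∑ i ∈ range L, d i * q i ∧ sd q n = ∑ i ∈ range L, d i := by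
  induction L using Nat.strong_induction_on with
  | _ L ih =>
    intro n hn
    have hsd0 : sd q 0 = 0 := by rw [sd, dif_pos rfl]
    have hzero : ∃ d : ℕ → ℕ, (∀ i, L ≤ i → d i = 0) ∧ d 0 < a 0 ∧
        (∀ i, d i ≤ a i) ∧ (∀ i, d (i + 1) = a (i + 1) → d i = 0) ∧
        0 = ∑ i ∈ range L, d i * q i ∧ sd q 0 = ∑ i ∈ range L, d i :=
      ⟨fun _ => 0, fun _ _ => rfl, ha 0, fun _ => Nat.zero_le _, fun _ _ => rfl, by simp,
        by simp [hsd0]⟩
    match L, ih, hn, hzero with
    | 0, _, hn, hzero =>
      rw [hq0] at hn
      have : n = 0 := by omega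
      subst this
      exact hzero
    | 1, _, hn, _ =>
      rw [hq1] at hn
      refine ⟨fun i => if i = 0 then n else 0, fun i hi => ?_, ?_, fun i => ?_, fun i h => ?_, ?_, ?_⟩
      · exact if_neg (by omega)
      · simpa using hn
      · rcases i with _ | i
        · simpa using hn.le
        · simp
      · have := ha (i + 1)
        simp at h
        omega
      · simp [hq0]
      · simp only [range_one, sum_singleton, if_true]
        have h1 := sd_mul ha hq0 hq1 hq 0 n 0 (by rw [hq0, mul_one, add_zero]; simpa [hq1] using hn)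
        rw [hq0, mul_one, add_zero, hsd0, add_zero] at h1
        exact h1
    | l + 2, ih, hn, _ =>
      have hQ := hq l
      have hQp := q_pos ha hq0 hq1 hq (l + 1)
      set Q := q (l + 1) with hQdef
      set c := n / Q with hc
      set n' := n % Q with hn'
      have hnc : n = c * Q + n' := by
        rw [hc, hn', mul_comm]
        exact (Nat.div_add_mod n Q).symm
      have hn'Q : n' < Q := Nat.mod_lt _ hQp
      have hsd : sd q n = c + sd q n' := by
        rw [hnc]
        have h1 := sd_mul ha hq0 hq1 hq (l + 1) c n' (by
          rw [← hQdef, ← hnc]; exact hn)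
        rw [← hQdef] at h1
        exact h1
      rcases Nat.lt_or_ge c (a (l + 1)) with hca | hca
      · obtain ⟨d, d1, d2, d3, d4, d5, d6⟩ := ih (l + 1) (by omega) n' hn'Q
        refine ⟨fun i => if i = l + 1 then c else d i, fun i hi => ?_, ?_, fun i => ?_,
          fun i h => ?_, ?_, ?_⟩
        · simp only
          rw [if_neg (by omega)]
          exact d1 i (by omega)
        · simp only
          rw [if_neg (by omega)]
          exact d2
        · simp only
          split_ifs with h
          · rw [h]; exact hca.le
          · exact d3 i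
        · simp only at h ⊢
          by_cases h1 : i + 1 = l + 1
          · rw [if_pos h1, h1] at h
            omega
          · rw [if_neg h1] at h
            by_cases h2 : i = l + 1
            · rw [d1 (i + 1) (by omega)] at h
              have := ha (i + 1)
              omega
            · rw [if_neg h2]
              exact d4 i h
        · rw [sum_range_succ]
          have h1 : ∀ i ∈ range (l + 1), (if i = l + 1 then c else d i) * q i = d i * q i := by
            intro i hi
            rw [if_neg (by have := mem_range.1 hi; omega)]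
          rw [sum_congr rfl h1, ← d5]
          beta_reduce
          rw [if_pos rfl, ← hQdef]
          omega
        · rw [sum_range_succ]
          have h1 : ∀ i ∈ range (l + 1), (if i = l + 1 then c else d i) = d i := by
            intro i hi
            rw [if_neg (by have := mem_range.1 hi; omega)]
          rw [sum_congr rfl h1, ← d6]
          rw [if_pos rfl, hsd]
          omega
      · have hca2 : c = a (l + 1) := by
          by_contra hne
          have h1 : a (l + 1) + 1 ≤ c := by omega
          have h2 : (a (l + 1) + 1) * Q ≤ c * Q := Nat.mul_le_mul_right _ h1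
          have h3 : (a (l + 1) + 1) * Q = a (l + 1) * Q + Q := by ring
          have h4 := q_le ha hq0 hq1 hq l
          omega
        have hn'l : n' < q l := by
          rw [hca2] at hnc
          omega
        obtain ⟨d, d1, d2, d3, d4, d5, d6⟩ := ih l (by omega) n' hn'l
        have hdl : d l = 0 := d1 l le_rfl
        refine ⟨fun i => if i = l + 1 then c else d i, fun i hi => ?_, ?_, fun i => ?_,
          fun i h => ?_, ?_, ?_⟩
        · simp only
          rw [if_neg (by omega)]
          exact d1 i (by omega)
        · simp only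
          rw [if_neg (by omega)]
          exact d2
        · simp only
          split_ifs with h
          · rw [h, hca2]
          · exact d3 i
        · simp only at h ⊢
          by_cases h1 : i + 1 = l + 1
          · have : i = l := by omega
            rw [if_neg (by omega), this]
            exact hdl
          · rw [if_neg h1] at h
            by_cases h2 : i = l + 1
            · rw [d1 (i + 1) (by omega)] at h
              have := ha (i + 1)
              omega
            · rw [if_neg h2]
              exact d4 i h
        · rw [sum_range_succ, sum_range_succ]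
          have h1 : ∀ i ∈ range l, (if i = l + 1 then c else d i) * q i = d i * q i := by
            intro i hi
            rw [if_neg (by have := mem_range.1 hi; omega)]
          rw [sum_congr rfl h1, ← d5]
          beta_reduce
          rw [if_pos rfl, if_neg (by omega), hdl, zero_mul, add_zero, ← hQdef]
          omega
        · rw [sum_range_succ, sum_range_succ]
          have h1 : ∀ i ∈ range l, (if i = l + 1 then c else d i) = d i := by
            intro i hi
            rw [if_neg (by have := mem_range.1 hi; omega)]
          rw [sum_congr rfl h1, ← d6]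
          rw [if_pos rfl, if_neg (by omega), hdl, add_zero, hsd]
          omega

lemma two_pow_le (k : ℕ) : 2 ^ k ≤ q (2 * k) := by
  induction k with
  | zero => simp [hq0]
  | succ k ih =>
    have h1 : q (2 * (k + 1)) = a (2 * k + 1) * q (2 * k + 1) + q (2 * k) := hq (2 * k)
    have h2 := q_le ha hq0 hq1 hq (2 * k)
    have h3 : 1 * q (2 * k + 1) ≤ a (2 * k + 1) * q (2 * k + 1) := Nat.mul_le_mul_right _ (ha _)
    rw [h1, pow_succ]
    omega

end Den

/-- the characters modulo `m` -/
lemma char_sum (m : ℕ) (hm : 1 ≤ m) (k : ℤ) :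
    ∑ l ∈ range m, e (k * ((l : ℝ) / m)) = if (m : ℤ) ∣ k then (m : ℂ) else 0 := by
  have hm' : (0 : ℝ) < m := by exact_mod_cast hm
  split_ifs with hk
  · obtain ⟨t, rfl⟩ := hk
    have : ∀ l ∈ range m, e (((m : ℤ) * t : ℤ) * ((l : ℝ) / m)) = 1 := by
      intro l _
      have e1 : (((m : ℤ) * t : ℤ) : ℝ) * ((l : ℝ) / m) = ((t * l : ℤ) : ℝ) := by
        push_cast
        field_simp
      rw [e1]
      exact e_int _
    rw [sum_congr rfl this]
    simp
  · exact sum_char m hm k hk

/-- a prime detecting the order -/
lemma exists_prime (m l : ℕ) (hl : 1 ≤ l) (hlm : l < m) : ∃ p : ℕ, p.Prime ∧ p ∣ m ∧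
    ∀ n : ℕ, ¬ p ∣ n → e ((l : ℝ) / m) ^ n ≠ 1 := by
  have hm : 0 < m := by omega
  have hm' : (0 : ℝ) < m := by exact_mod_cast hm
  set g := Nat.gcd l m with hg
  have hg0 : 0 < g := Nat.gcd_pos_of_pos_left _ (by omega)
  have hgm : g ∣ m := Nat.gcd_dvd_right _ _
  have hgl : g ≤ l := Nat.le_of_dvd (by omega) (Nat.gcd_dvd_left _ _)
  have h1 : m / g ≠ 1 := by
    intro h
    have := Nat.div_mul_cancel hgm
    rw [h, one_mul] at this
    omega
  refine ⟨(m / g).minFac, Nat.minFac_prime h1, (Nat.minFac_dvd _).trans (Nat.div_dvd_of_dvd hgm), ?_⟩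
  intro n hn h
  apply hn
  refine (Nat.minFac_dvd _).trans ?_
  rw [← e_natmul] at h
  unfold Pool.Agent.H469R2.NK.e at h
  rw [Complex.exp_eq_one_iff] at h
  obtain ⟨z, hz⟩ := h
  have h2 : (n : ℝ) * ((l : ℝ) / m) = z := by
    have h3 : (2 * Real.pi * Complex.I : ℂ) ≠ 0 := Complex.two_pi_I_ne_zero
    have h4 : ((n * ((l : ℝ) / m) : ℝ) : ℂ) * (2 * Real.pi * Complex.I) =
        (z : ℂ) * (2 * Real.pi * Complex.I) := by
      rw [← hz]
      push_cast
      ring
    have h5 := mul_right_cancel₀ h3 h4
    exact_mod_cast h5
  have h3 : (n : ℤ) * l = z * m := by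
    have h4 : (n : ℝ) * l = z * m := by
      rw [← h2]
      field_simp
    exact_mod_cast h4
  have h4 : m ∣ n * l := by
    have : (m : ℤ) ∣ ((n * l : ℕ) : ℤ) := ⟨z, by push_cast; rw [h3]; ring⟩
    exact_mod_cast this
  -- m / g divides n
  have h5 : Nat.Coprime (m / g) (l / g) := by
    rw [Nat.coprime_comm]
    exact Nat.coprime_div_gcd_div_gcd hg0
  have h6 : m / g ∣ n * (l / g) := by
    have hgl2 : g ∣ l := Nat.gcd_dvd_left _ _
    rw [← Nat.mul_div_assoc _ hgl2]
    exact Nat.div_dvd_div hgm h4
  exact h5.dvd_of_dvd_mul_right h6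

end Pool.Agent.L5helper45.OS
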