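import Pool.Agent.L5helper45.OS.Step
import Pool.Agent.TH915.PW.Disc
import Pool.Agent.L5helper45.MB.Spec

set_option autoImplicit false

/-! # Ostrowski numeration: digit sums and their exponential sums -/

namespace Pool.Agent.L5helper45.OS

open Finset Filter
open Pool.Agent.H469R2.NK (e norm_e e_add)
open Pool.Agent.TH915.PW (e_natmul e_int)

/-- the greedy sum of digits: subtract the largest possible `q k` again and again -/
noncomputable def sd (q : ℕ → ℕ) (n : ℕ) : ℕ :=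
  if h : n = 0 then 0
  else 1 + sd q (n - max 1 (q (Nat.findGreatest (fun k => q k ≤ n) n)))
termination_by n
decreasing_by
  have : 1 ≤ max 1 (q (Nat.findGreatest (fun k => q k ≤ n) n)) := le_max_left _ _
  omega

section Den

variable {a q : ℕ → ℕ} (ha : ∀ k, 1 ≤ a k) (hq0 : q 0 = 1) (hq1 : q 1 = a 0)
  (hq : ∀ k, q (k + 2) = a (k + 1) * q (k + 1) + q k)

include ha hq0 hq1 hq

lemma q_pos : ∀ k, 1 ≤ q k := by
  intro k
  induction k using Nat.strong_induction_on with
  | _ k ih =>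
    match k with
    | 0 => rw [hq0]
    | 1 => rw [hq1]; exact ha 0
    | k + 2 =>
      rw [hq]
      have := ih k (by omega)
      omega

lemma q_lt (k : ℕ) : q (k + 1) < q (k + 2) := by
  have h1 := q_pos ha hq0 hq1 hq k
  have h2 : 1 * q (k + 1) ≤ a (k + 1) * q (k + 1) := Nat.mul_le_mul_right _ (ha _)
  rw [hq]
  omega

lemma q_le (k : ℕ) : q k ≤ q (k + 1) := by
  rcases k with _ | k
  · rw [hq0, hq1]; exact ha 0
  · exact (q_lt ha hq0 hq1 hq k).le

lemma q_mono : Monotone q := monotone_nat_of_le_succ (q_le ha hq0 hq1 hq)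

lemma le_q (k : ℕ) : k ≤ q k := by
  induction k with
  | zero => omega
  | succ k ih =>
    rcases k with _ | k
    · exact q_pos ha hq0 hq1 hq 1
    · have := q_lt ha hq0 hq1 hq k
      show k + 1 + 1 ≤ q (k + 2)
      omega

lemma find_eq (L n : ℕ) (h1 : q L ≤ n) (h2 : n < q (L + 1)) :
    Nat.findGreatest (fun k => q k ≤ n) n = L := by
  rw [Nat.findGreatest_eq_iff]
  refine ⟨(le_q ha hq0 hq1 hq L).trans h1, fun _ => h1, ?_⟩
  intro k hk _ hkn
  have := q_mono ha hq0 hq1 hq (show L + 1 ≤ k by omega)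
  omega

lemma sd_step (L n : ℕ) (h1 : q L ≤ n) (h2 : n < q (L + 1)) : sd q n = 1 + sd q (n - q L) := by
  have h3 := q_pos ha hq0 hq1 hq L
  rw [sd, dif_neg (by omega), find_eq ha hq0 hq1 hq L n h1 h2, max_eq_right h3]

lemma sd_mul (L : ℕ) (d : ℕ) : ∀ n, d * q L + n < q (L + 1) → sd q (d * q L + n) = d + sd q n := by
  induction d with
  | zero => intro n _; simp
  | succ d ih =>
    intro n hn
    have h1 : (d + 1) * q L + n = (d * q L + n) + q L := by ring
    rw [sd_step ha hq0 hq1 hq L _ (by rw [h1]; omega) hn, h1, Nat.add_sub_cancel, ih n (by omega)]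
    ring

/-- the exponential sums -/
lemma T_rec (ω : ℂ) (θ : ℝ) (k : ℕ) : ∑ n ∈ range (q (k + 2)), ω ^ sd q n * e (n * θ) =
    (∑ d ∈ range (a (k + 1)), (ω * e (q (k + 1) * θ)) ^ d) *
        ∑ n ∈ range (q (k + 1)), ω ^ sd q n * e (n * θ) +
      (ω * e (q (k + 1) * θ)) ^ a (k + 1) * ∑ n ∈ range (q k), ω ^ sd q n * e (n * θ) := by
  have hterm : ∀ d n, d * q (k + 1) + n < q (k + 2) →
      ω ^ sd q (q (k + 1) * d + n) * e (((q (k + 1) * d + n : ℕ) : ℝ) * θ) =
      (ω * e (q (k + 1) * θ)) ^ d * (ω ^ sd q n * e (n * θ)) := by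
    intro d n h
    rw [mul_comm (q (k + 1)) d, sd_mul ha hq0 hq1 hq (k + 1) d n h, pow_add, mul_pow]
    have h1 : e (((d * q (k + 1) + n : ℕ) : ℝ) * θ) = e (q (k + 1) * θ) ^ d * e (n * θ) := by
      rw [← e_natmul, ← e_add]
      congr 1
      push_cast
      ring
    rw [h1]
    ring
  have hqk := q_le ha hq0 hq1 hq k
  have hq2 := hq k
  conv_lhs => rw [hq k, mul_comm, sum_range_add, Pool.Agent.L5helper45.MB.sum_blocks]
  congr 1
  · rw [sum_mul]
    refine sum_congr rfl fun d hd => ?_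
    rw [mul_sum]
    refine sum_congr rfl fun n hn => ?_
    apply hterm
    have h1 := mem_range.1 hd
    have h2 := mem_range.1 hn
    have h3 : (d + 1) * q (k + 1) ≤ a (k + 1) * q (k + 1) := Nat.mul_le_mul_right _ h1
    have h4 : (d + 1) * q (k + 1) = d * q (k + 1) + q (k + 1) := by ring
    omega
  · rw [mul_sum]
    refine sum_congr rfl fun n hn => ?_
    apply hterm
    have h2 := mem_range.1 hn
    omega

/-- the states -/
lemma state_step (ω : ℂ) (θ : ℝ) (T : ℕ → ℂ)
    (hT : ∀ k, T k = ∑ n ∈ range (q k), ω ^ sd q n * e (n * θ)) (k : ℕ) :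
    st ω (a (k + 1)) (T (k + 1) / q (k + 1), T k / q k, e (q (k + 1) * θ), e (q k * θ),
      (q k : ℝ) / q (k + 1)) =
      (T (k + 2) / q (k + 2), T (k + 1) / q (k + 1), e (q (k + 2) * θ), e (q (k + 1) * θ),
      (q (k + 1) : ℝ) / q (k + 2)) := by
  have p0 := q_pos ha hq0 hq1 hq k
  have p1 := q_pos ha hq0 hq1 hq (k + 1)
  have p2 := q_pos ha hq0 hq1 hq (k + 2)
  have r0 : (0 : ℝ) < q k := by exact_mod_cast p0
  have r1 : (0 : ℝ) < q (k + 1) := by exact_mod_cast p1
  have r2 : (0 : ℝ) < q (k + 2) := by exact_mod_cast p2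
  have c0 : (q k : ℂ) ≠ 0 := by exact_mod_cast r0.ne'
  have c1 : (q (k + 1) : ℂ) ≠ 0 := by exact_mod_cast r1.ne'
  have c2 : (q (k + 2) : ℂ) ≠ 0 := by exact_mod_cast r2.ne'
  have habs : |(q k : ℝ) / q (k + 1)| = (q k : ℝ) / q (k + 1) := abs_of_nonneg (by positivity)
  have hqr : (q (k + 2) : ℝ) = a (k + 1) * q (k + 1) + q k := by exact_mod_cast hq k
  have hden : (a (k + 1) : ℝ) + (q k : ℝ) / q (k + 1) = q (k + 2) / q (k + 1) := by
    rw [hqr]
    field_simp
  unfold st
  simp only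
  rw [habs, hden]
  refine Prod.ext ?_ (Prod.ext rfl (Prod.ext ?_ (Prod.ext rfl ?_)))
  · simp only
    rw [hT (k + 2), T_rec ha hq0 hq1 hq, ← hT (k + 1), ← hT k]
    push_cast
    field_simp
  · simp only
    rw [← e_natmul, ← e_add]
    congr 1
    rw [hqr]
    ring
  · simp only
    field_simp

end Den

end Pool.Agent.L5helper45.OS
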