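import Pool.Agent.L5helper45.OS.Final

set_option autoImplicit false

/-! # Record gaps around integers with prescribed Ostrowski sums of digits: the theorem -/

namespace Pool.Agent.L5helper45.OS

open Finset Filter
open Pool.Agent.H469R2.NK (e norm_e e_add)
open Pool.Agent.TH915.PW (e_natmul e_int sum_char)
open Pool.Agent.W147.PS (ff ev_pow)

variable {a q : ℕ → ℕ} (ha : ∀ k, 1 ≤ a k) (hq0 : q 0 = 1) (hq1 : q 1 = a 0)
  (hq : ∀ k, q (k + 2) = a (k + 1) * q (k + 1) + q k)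

include ha hq0 hq1 hq

/-- the power saving for all characters modulo `m` -/
lemma all_chars (m : ℕ) (hm : 1 ≤ m) (K : ℕ) (C c : ℝ) (hc : 0 < c) (hC1 : 1 < C)
    (hC : ∀ᶠ k : ℕ in atTop, (q k : ℝ) ≤ C ^ k)
    (hg : ∀ p : ℕ, p.Prime → p ∣ m → ∀ᶠ k : ℕ in atTop, c * k ≤
      ((range k).filter (fun i => (∀ j < 4, a (i + j) ≤ K) ∧ ¬ p ∣ a (i + 2))).card) :
    ∃ δ : ℝ, 0 < δ ∧ δ ≤ 1 ∧ ∀ᶠ k : ℕ in atTop, ∀ l ∈ Ico 1 m, ∀ θ : ℝ,
      ‖∑ n ∈ range (q k), e ((l : ℝ) / m) ^ sd q n * e (n * θ)‖ ≤ (q k : ℝ) ^ (1 - δ) := by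
  have h : ∀ l : ℕ, ∃ δ : ℝ, 0 < δ ∧ δ ≤ 1 ∧ (l ∈ Ico 1 m → ∀ᶠ k : ℕ in atTop, ∀ θ : ℝ,
      ‖∑ n ∈ range (q k), e ((l : ℝ) / m) ^ sd q n * e (n * θ)‖ ≤ (q k : ℝ) ^ (1 - δ)) := by
    intro l
    by_cases hl : l ∈ Ico 1 m
    · obtain ⟨hl1, hl2⟩ := mem_Ico.1 hl
      obtain ⟨p, hp, hpm, hpe⟩ := exists_prime m l hl1 hl2
      obtain ⟨δ, h1, h2, h3⟩ := power ha hq0 hq1 hq (e ((l : ℝ) / m)) (norm_e _) K C c hc hC1 hC
        (fun i => (∀ j < 4, a (i + j) ≤ K) ∧ ¬ p ∣ a (i + 2)) (fun i hi => ⟨hi.1, hpe _ hi.2⟩)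
        (hg p hp hpm)
      exact ⟨δ, h1, h2, fun _ => h3⟩
    · exact ⟨1, one_pos, le_rfl, fun h => absurd h hl⟩
  choose δ h1 h2 h3 using h
  have hne : (range m).Nonempty := ⟨0, mem_range.2 hm⟩
  refine ⟨(range m).inf' hne δ, ?_, ?_, ?_⟩
  · rw [lt_inf'_iff]
    exact fun l _ => h1 l
  · exact (inf'_le _ (mem_range.2 hm)).trans (h2 0)
  · rw [eventually_all_finset]
    intro l hl
    filter_upwards [h3 l hl] with k hk
    intro θ
    refine (hk θ).trans ?_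
    have hq1' : (1 : ℝ) ≤ q k := by exact_mod_cast q_pos ha hq0 hq1 hq k
    apply Real.rpow_le_rpow_of_exponent_le hq1'
    have : (range m).inf' hne δ ≤ δ l := inf'_le _ (mem_range.2 (mem_Ico.1 hl).2)
    linarith

set_option maxHeartbeats 4000000 in
theorem ost_main (m m₁ : ℕ) (hm : 1 ≤ m) (hm₁ : 1 ≤ m₁) (K : ℕ) (C c : ℝ) (hc : 0 < c) (hC1 : 1 < C)
    (hC : ∀ᶠ k : ℕ in atTop, (q k : ℝ) ≤ C ^ k)
    (hg : ∀ p : ℕ, p.Prime → p ∣ m → ∀ᶠ k : ℕ in atTop, c * k ≤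
      ((range k).filter (fun i => (∀ j < 4, a (i + j) ≤ K) ∧ ¬ p ∣ a (i + 2))).card)
    (ε : ℝ) (hε : 0 < ε) (hε1 : ε ≤ 1) :
    ∃ κ : ℝ, 0 < κ ∧ ∀ᶠ M : ℝ in atTop, ∀ x r : ℕ, ∃ n : ℕ, M < n ∧ (n : ℝ) ≤ M + M ^ ε ∧
      n ≡ r [MOD m₁] ∧ sd q n ≡ x [MOD m] ∧ ∀ p : ℕ, p.Prime → κ * ff M < |(p : ℝ) - n| := by
  classical
  obtain ⟨δ, hδ0, hδ1, hδ⟩ := all_chars ha hq0 hq1 hq m hm K C c hc hC1 hC hg
  have hmr : (1 : ℝ) ≤ m := by exact_mod_cast hm
  have hm0 : (0 : ℝ) < m := by linarith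
  have hmc : (m : ℂ) ≠ 0 := by exact_mod_cast hm0.ne'
  -- an integral exponent
  obtain ⟨A₀, hA₀⟩ : ∃ A : ℕ, C ≤ 2 ^ A := by
    obtain ⟨A, hA⟩ := pow_unbounded_of_one_lt C (one_lt_two (α := ℝ))
    exact ⟨A, hA.le⟩
  set A : ℕ := A₀ + 1 with hA
  have hA1 : (1 : ℝ) ≤ A := by rw [hA]; push_cast; linarith [Nat.cast_nonneg (α := ℝ) A₀]
  have hCA : C ≤ 2 ^ A := by
    refine hA₀.trans ?_
    exact pow_le_pow_right₀ (by norm_num) (by omega)
  set ε₁ : ℝ := ε / (8 * A) with hε₁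
  have hε₁0 : 0 < ε₁ := by rw [hε₁]; positivity
  have hε₁1 : ε₁ ≤ 1 := by
    rw [hε₁, div_le_one (by positivity)]
    linarith
  obtain ⟨κ, hκ, habs⟩ := Pool.Agent.L5helper45.MB.abs_main m₁ hm₁ (1 / m) δ ε₁ (by positivity)
    (by rw [div_le_one hm0]; exact hmr) hδ0 hδ1 hε₁0 hε₁1
  refine ⟨κ, hκ, ?_⟩
  obtain ⟨k₁, hk₁⟩ := eventually_atTop.1 (hδ.and hC)
  set k₀ : ℕ := max k₁ 3 with hk₀
  filter_upwards [habs, (tendsto_rpow_atTop hε).eventually_ge_atTop (4 * (q (k₀ + 2) : ℝ)),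
    ev_pow (ε / 2) ε 4 (by linarith), eventually_ge_atTop (1 : ℝ),
    (tendsto_rpow_atTop hε).eventually_ge_atTop 2] with M hM hMk hM4 hM1 hM2
  intro x r
  have hM0 : 0 < M := by linarith
  -- the block length
  set Pk : ℕ → Prop := fun k => (q (k + 2) : ℝ) ≤ M ^ ε / 4 with hPk
  have hle : ∀ k, Pk k → k ≤ ⌈M ^ ε⌉₊ := by
    intro k hk
    have h1 : (k : ℝ) ≤ q (k + 2) := by
      have := le_q ha hq0 hq1 hq (k + 2)
      exact_mod_cast (by omega : k ≤ q (k + 2))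
    have h2 : (k : ℝ) ≤ M ^ ε := by
      have h3 : (q (k + 2) : ℝ) ≤ M ^ ε / 4 := hk
      linarith
    have h3 : (k : ℝ) ≤ (⌈M ^ ε⌉₊ : ℝ) := h2.trans (Nat.le_ceil _)
    exact_mod_cast h3
  have hPk₀ : Pk k₀ := by
    show (q (k₀ + 2) : ℝ) ≤ M ^ ε / 4
    linarith
  set k : ℕ := Nat.findGreatest Pk ⌈M ^ ε⌉₊ with hk
  have hkk₀ : k₀ ≤ k := Nat.le_findGreatest (hle k₀ hPk₀) hPk₀
  have hPkk : Pk k := Nat.findGreatest_spec (hle k₀ hPk₀) hPk₀
  have hPk1 : ¬ Pk (k + 1) := by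
    intro h
    have := Nat.le_findGreatest (hle _ h) h
    omega
  have hk3 : 3 ≤ k := (le_max_right _ _).trans hkk₀
  have hkk₁ : k₁ ≤ k := (le_max_left _ _).trans hkk₀
  have hq2 : (q (k + 2) : ℝ) ≤ M ^ ε / 4 := hPkk
  have hq3 : M ^ ε / 4 < q (k + 3) := by
    have h1 : ¬ (q (k + 1 + 2) : ℝ) ≤ M ^ ε / 4 := hPk1
    push Not at h1
    exact h1
  -- q (k + 3) ≤ q (k + 1) ^ (4 A)
  have hq31 : (q (k + 3) : ℝ) ≤ (q (k + 1) : ℝ) ^ (4 * A) := by
    have h1 : (q (k + 3) : ℝ) ≤ C ^ (k + 3) := (hk₁ (k + 3) (by omega)).2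
    have h2 : C ^ (k + 3) ≤ ((2 : ℝ) ^ A) ^ (k + 3) := pow_le_pow_left₀ (by linarith) hCA _
    have h3 : ((2 : ℝ) ^ A) ^ (k + 3) ≤ ((2 : ℝ) ^ ((k + 1) / 2)) ^ (4 * A) := by
      rw [← pow_mul, ← pow_mul]
      apply pow_le_pow_right₀ (by norm_num)
      have h4 : k ≤ 2 * ((k + 1) / 2) := by omega
      calc A * (k + 3) ≤ A * (2 * k) := Nat.mul_le_mul_left _ (by omega)
        _ ≤ A * (2 * (2 * ((k + 1) / 2))) := Nat.mul_le_mul_left _ (by omega)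
        _ = (k + 1) / 2 * (4 * A) := by ring
    have h5 : (2 : ℝ) ^ ((k + 1) / 2) ≤ q (k + 1) := by
      have h6 := two_pow_le ha hq0 hq1 hq ((k + 1) / 2)
      have h7 : q (2 * ((k + 1) / 2)) ≤ q (k + 1) := q_mono ha hq0 hq1 hq (by omega)
      exact_mod_cast h6.trans h7
    exact h1.trans (h2.trans (h3.trans (pow_le_pow_left₀ (by positivity) h5 _)))
  have hH : M ^ ε₁ ≤ q (k + 1) := by
    by_contra hcon
    push Not at hcon
    have h1 : (q (k + 1) : ℝ) ^ (4 * A) ≤ (M ^ ε₁) ^ (4 * A) :=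
      pow_le_pow_left₀ (Nat.cast_nonneg _) hcon.le _
    have h2 : (M ^ ε₁) ^ (4 * A) = M ^ (ε / 2) := by
      rw [← Real.rpow_natCast, ← Real.rpow_mul hM0.le]
      congr 1
      rw [hε₁]
      push_cast
      field_simp
      ring
    rw [h2] at h1
    linarith
  -- the block
  set t : ℕ := ⌊M⌋₊ + 1 with ht
  have htM : M < t := by
    have := Nat.lt_floor_add_one M
    rw [ht]; push_cast; exact this
  have htM' : (t : ℝ) ≤ M + 1 := by
    have := Nat.floor_le hM0.le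
    rw [ht]; push_cast; linarith
  obtain ⟨N, hN1, hN2, hN3, hN4⟩ := clean ha hq0 hq1 hq k (t + q (k + 2))
    (by have := le_q ha hq0 hq1 hq (k + 2); omega) t (le_q ha hq0 hq1 hq _)
  have hNt : (t : ℝ) ≤ N := by exact_mod_cast hN1
  have hNt2 : (N : ℝ) ≤ t + q (k + 2) := by exact_mod_cast hN2
  set T : Set ℕ := {n | sd q n ≡ x [MOD m]} with hT
  set D : ℕ → ℂ := fun n => (if sd q n ≡ x [MOD m] then (1 : ℂ) else 0) - ((1 / m : ℝ) : ℂ) with hD
  obtain ⟨i, hi, hi2, hi3, hi4⟩ := hM N (q (k + 1)) r T D (by linarith) hH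
    (by
      intro n _ hn
      have hn' : sd q n ≡ x [MOD m] := hn
      simp only [hD]
      rw [if_pos hn']
      ring)
    (by
      intro n _ hn
      have hn' : ¬ sd q n ≡ x [MOD m] := hn
      simp only [hD]
      rw [if_neg hn']
      ring)
    (by
      intro θ
      -- Fourier expansion of D
      have hDexp : ∀ n, D n = (1 / m : ℂ) * ∑ l ∈ Ico 1 m,
          e (-(x : ℝ) * ((l : ℝ) / m)) * e ((l : ℝ) / m) ^ sd q n := by
        intro n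
        have h1 := char_sum m hm ((sd q n : ℤ) - x)
        rw [range_eq_Ico, sum_eq_sum_Ico_succ_bot (by omega : 0 < m)] at h1
        have h2 : e (((sd q n : ℤ) - (x : ℤ) : ℤ) * (((0 : ℕ) : ℝ) / m)) = 1 := by
          simp [Pool.Agent.H469R2.NK.e_zero]
        rw [h2] at h1
        have h3 : ∀ l ∈ Ico 1 m, e (-(x : ℝ) * ((l : ℝ) / m)) * e ((l : ℝ) / m) ^ sd q n =
            e (((sd q n : ℤ) - (x : ℤ) : ℤ) * ((l : ℝ) / m)) := by
          intro l _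
          rw [← e_natmul, ← e_add]
          congr 1
          push_cast
          ring
        rw [sum_congr rfl h3]
        have h4 : sd q n ≡ x [MOD m] ↔ (m : ℤ) ∣ (sd q n : ℤ) - x := by
          rw [Nat.ModEq.comm, Nat.modEq_iff_dvd]
        have h5 : ∑ l ∈ Ico (0 + 1) m, e (((sd q n : ℤ) - (x : ℤ) : ℤ) * ((l : ℝ) / m)) =
            (if (m : ℤ) ∣ (sd q n : ℤ) - x then (m : ℂ) else 0) - 1 := by
          rw [← h1]; ring
        rw [zero_add] at h5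
        rw [h5]
        simp only [hD]
        by_cases h6 : sd q n ≡ x [MOD m]
        · rw [if_pos h6, if_pos (h4.1 h6)]
          push_cast
          field_simp
        · rw [if_neg h6, if_neg (fun h => h6 (h4.2 h))]
          push_cast
          ring
      have hsum : ∑ n ∈ range (q (k + 1)), e (((N + n : ℕ) : ℝ) * θ) * D (N + n) =
          (1 / m : ℂ) * ∑ l ∈ Ico 1 m, (e (-(x : ℝ) * ((l : ℝ) / m)) * e ((l : ℝ) / m) ^ sd q N *
            e (N * θ)) * ∑ n ∈ range (q (k + 1)), e ((l : ℝ) / m) ^ sd q n * e (n * θ) := by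
        have h1 : ∀ n ∈ range (q (k + 1)), e (((N + n : ℕ) : ℝ) * θ) * D (N + n) =
            (1 / m : ℂ) * ∑ l ∈ Ico 1 m, (e (-(x : ℝ) * ((l : ℝ) / m)) *
              e ((l : ℝ) / m) ^ sd q N * e (N * θ)) * (e ((l : ℝ) / m) ^ sd q n * e (n * θ)) := by
          intro n hn
          rw [hDexp, hN4 n (mem_range.1 hn), mul_left_comm, mul_sum]
          congr 1
          refine sum_congr rfl fun l _ => ?_
          have h2 : e (((N + n : ℕ) : ℝ) * θ) = e (N * θ) * e (n * θ) := by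
            rw [← e_add]
            congr 1
            push_cast
            ring
          rw [h2, pow_add]
          ring
        rw [sum_congr rfl h1, ← mul_sum, sum_comm]
        congr 1
        refine sum_congr rfl fun l _ => ?_
        rw [mul_sum]
      rw [hsum, norm_mul]
      have h2 : ‖(1 / m : ℂ)‖ = 1 / m := by
        rw [norm_div, norm_one, Complex.norm_natCast]
      rw [h2]
      have h3 : ‖∑ l ∈ Ico 1 m, (e (-(x : ℝ) * ((l : ℝ) / m)) * e ((l : ℝ) / m) ^ sd q N *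
            e (N * θ)) * ∑ n ∈ range (q (k + 1)), e ((l : ℝ) / m) ^ sd q n * e (n * θ)‖ ≤
          m * (q (k + 1) : ℝ) ^ (1 - δ) := by
        refine (norm_sum_le _ _).trans ?_
        have h4 : ∀ l ∈ Ico 1 m, ‖(e (-(x : ℝ) * ((l : ℝ) / m)) * e ((l : ℝ) / m) ^ sd q N *
            e (N * θ)) * ∑ n ∈ range (q (k + 1)), e ((l : ℝ) / m) ^ sd q n * e (n * θ)‖ ≤
            (q (k + 1) : ℝ) ^ (1 - δ) := by
          intro l hl
          rw [norm_mul, norm_mul, norm_mul, norm_pow, norm_e, norm_e, norm_e, one_pow, one_mul,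
            one_mul, one_mul]
          exact (hk₁ (k + 1) (by omega)).1 l hl θ
        refine (sum_le_sum h4).trans ?_
        rw [sum_const, Nat.card_Ico, nsmul_eq_mul]
        apply mul_le_mul_of_nonneg_right _ (by positivity)
        exact_mod_cast Nat.sub_le _ _
      calc 1 / (m : ℝ) * _ ≤ 1 / m * (m * (q (k + 1) : ℝ) ^ (1 - δ)) :=
            mul_le_mul_of_nonneg_left h3 (by positivity)
        _ = _ := by field_simp)
  refine ⟨N + i, ?_, ?_, hi3, hi2, ?_⟩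
  · push_cast
    have : (0 : ℝ) ≤ i := Nat.cast_nonneg i
    linarith
  · push_cast
    have h1 : (i : ℝ) ≤ q (k + 1) := by exact_mod_cast hi.le
    have h2 : (q (k + 1) : ℝ) ≤ q (k + 2) := by exact_mod_cast q_le ha hq0 hq1 hq (k + 1)
    linarith
  · exact hi4

end Pool.Agent.L5helper45.OS
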