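import Mathlib

set_option autoImplicit false

/-! # Ostrowski numeration: the contraction -/

namespace Pool.Agent.L5helper45.OS

open Finset

/-- the state space: two consecutive normalised sums, two consecutive phases, a ratio -/
abbrev St := ℂ × ℂ × ℂ × ℂ × ℝ

/-- one step -/
noncomputable def st (ω : ℂ) (a : ℕ) (p : St) : St :=
  (((∑ d ∈ range a, (ω * p.2.2.1) ^ d) * p.1 + (ω * p.2.2.1) ^ a * |p.2.2.2.2| * p.2.1) /
      (a + |p.2.2.2.2| : ℝ), p.1, p.2.2.1 ^ a * p.2.2.2.1, p.2.2.1, 1 / (a + |p.2.2.2.2|))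

lemma st_cont (ω : ℂ) (a : ℕ) (ha : 1 ≤ a) : Continuous (st ω a) := by
  have ha' : (1 : ℝ) ≤ a := by exact_mod_cast ha
  have hne : ∀ p : St, (a : ℝ) + |p.2.2.2.2| ≠ 0 := fun p => by
    have := abs_nonneg p.2.2.2.2
    linarith
  have hnec : ∀ p : St, (((a : ℝ) + |p.2.2.2.2| : ℝ) : ℂ) ≠ 0 := fun p => by
    exact_mod_cast hne p
  unfold st
  refine Continuous.prodMk ?_ (Continuous.prodMk (by fun_prop) (Continuous.prodMk (by fun_prop)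
    (Continuous.prodMk (by fun_prop) ?_)))
  · exact Continuous.div (by fun_prop) (by fun_prop) hnec
  · exact Continuous.div (by fun_prop) (by fun_prop) hne

/-- the compact set of states -/
def KK : Set St := {p | ‖p.1‖ ≤ 1 ∧ ‖p.2.1‖ ≤ 1 ∧ ‖p.2.2.1‖ = 1 ∧ ‖p.2.2.2.1‖ = 1 ∧
  0 ≤ p.2.2.2.2 ∧ p.2.2.2.2 ≤ 1}

lemma KK_compact : IsCompact KK := by
  have h : KK = Metric.closedBall (0 : ℂ) 1 ×ˢ (Metric.closedBall (0 : ℂ) 1 ×ˢ
      (Metric.sphere (0 : ℂ) 1 ×ˢ (Metric.sphere (0 : ℂ) 1 ×ˢ Set.Icc (0 : ℝ) 1))) := by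
    ext ⟨x, y, z, w, ρ⟩
    simp [KK, Set.mem_prod]
  rw [h]
  exact (isCompact_closedBall _ _).prod ((isCompact_closedBall _ _).prod
    ((isCompact_sphere _ _).prod ((isCompact_sphere _ _).prod isCompact_Icc)))

lemma KK_nonempty : KK.Nonempty := ⟨(0, 0, 1, 1, 0), by simp [KK]⟩

lemma sum_le_a (u : ℂ) (hu : ‖u‖ = 1) (a : ℕ) : ‖∑ d ∈ range a, u ^ d‖ ≤ a := by
  refine (norm_sum_le _ _).trans ?_
  have : ∑ d ∈ range a, ‖u ^ d‖ = ∑ d ∈ range a, (1 : ℝ) := by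
    refine sum_congr rfl fun d _ => ?_
    rw [norm_pow, hu, one_pow]
  rw [this]
  simp

lemma eq_one_of_norm (z : ℂ) (hz : ‖z‖ = 1) (h : 2 ≤ ‖1 + z‖) : z = 1 := by
  have h1 : ‖1 + z‖ ^ 2 = 2 + 2 * z.re := by
    have e1 : ‖z‖ ^ 2 = 1 := by rw [hz]; norm_num
    rw [← Complex.normSq_eq_norm_sq, Complex.normSq_apply] at e1 ⊢
    simp only [Complex.add_re, Complex.add_im, Complex.one_re, Complex.one_im]
    nlinarith
  have h2 : (4 : ℝ) ≤ ‖1 + z‖ ^ 2 := by nlinarith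
  have h3 : 1 ≤ z.re := by linarith
  have e1 : ‖z‖ ^ 2 = 1 := by rw [hz]; norm_num
  rw [← Complex.normSq_eq_norm_sq, Complex.normSq_apply] at e1
  have h4 : z.im = 0 := by nlinarith [mul_self_nonneg z.im]
  have h5 : z.re = 1 := by
    rw [h4] at e1
    nlinarith
  exact Complex.ext (by simpa using h5) (by simpa using h4)

/-- a geometric sum of maximal modulus -/
lemma geo_eq (u : ℂ) (hu : ‖u‖ = 1) (a : ℕ) (ha : 2 ≤ a) (h : (a : ℝ) ≤ ‖∑ d ∈ range a, u ^ d‖) :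
    u = 1 := by
  apply eq_one_of_norm u hu
  obtain ⟨c, rfl⟩ : ∃ c, a = 2 + c := ⟨a - 2, by omega⟩
  have h1 : ∑ d ∈ range (2 + c), u ^ d = (1 + u) + ∑ d ∈ range c, u ^ (2 + d) := by
    rw [sum_range_add, sum_range_succ, sum_range_one, pow_zero, pow_one]
  have h2 : ‖∑ d ∈ range c, u ^ (2 + d)‖ ≤ c := by
    refine (norm_sum_le _ _).trans ?_
    have : ∑ d ∈ range c, ‖u ^ (2 + d)‖ = ∑ d ∈ range c, (1 : ℝ) := by
      refine sum_congr rfl fun d _ => ?_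
      rw [norm_pow, hu, one_pow]
    rw [this]
    simp
  rw [h1] at h
  have h3 := norm_add_le (1 + u) (∑ d ∈ range c, u ^ (2 + d))
  push_cast at h
  linarith

/-- equality in a weighted triangle inequality -/
lemma tri_eq (x y : ℂ) (hx : ‖x‖ ≤ 1) (hy : ‖y‖ ≤ 1) (a ρ : ℝ) (ha : 0 < a) (hρ : 0 < ρ)
    (h : a + ρ ≤ ‖(a : ℂ) * x + (ρ : ℂ) * y‖) : x = y := by
  have hx2 : ‖x‖ ^ 2 ≤ 1 := pow_le_one₀ (norm_nonneg _) hx
  have hy2 : ‖y‖ ^ 2 ≤ 1 := pow_le_one₀ (norm_nonneg _) hy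
  have h2 : (a + ρ) ^ 2 ≤ ‖(a : ℂ) * x + (ρ : ℂ) * y‖ ^ 2 := pow_le_pow_left₀ (by positivity) h 2
  rw [← Complex.normSq_eq_norm_sq, Complex.normSq_apply] at h2 hx2 hy2
  simp only [Complex.add_re, Complex.add_im, Complex.mul_re, Complex.mul_im, Complex.ofReal_re,
    Complex.ofReal_im, zero_mul, sub_zero, add_zero] at h2
  have hin : 1 ≤ x.re * y.re + x.im * y.im := by
    have hap : 0 < a * ρ := by positivity
    have e1 : a * ρ * 1 ≤ a * ρ * (x.re * y.re + x.im * y.im) := by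
      have f1 := mul_le_mul_of_nonneg_left hx2 (sq_nonneg a)
      have f2 := mul_le_mul_of_nonneg_left hy2 (sq_nonneg ρ)
      nlinarith [f1, f2, h2]
    exact le_of_mul_le_mul_left e1 hap
  have h3 : (x.re - y.re) ^ 2 + (x.im - y.im) ^ 2 ≤ 0 := by nlinarith
  have h4 : x.re - y.re = 0 := by nlinarith [sq_nonneg (x.re - y.re), sq_nonneg (x.im - y.im)]
  have h5 : x.im - y.im = 0 := by nlinarith [sq_nonneg (x.re - y.re), sq_nonneg (x.im - y.im)]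
  exact Complex.ext (by linarith) (by linarith)

section Step

variable (ω : ℂ) (hω : ‖ω‖ = 1) (a : ℕ) (ha : 1 ≤ a) (p : St) (hp : p ∈ KK)

include hω ha hp

omit ha in
lemma num_le : ‖(∑ d ∈ range a, (ω * p.2.2.1) ^ d) * p.1 +
    (ω * p.2.2.1) ^ a * |p.2.2.2.2| * p.2.1‖ ≤ a * ‖p.1‖ + |p.2.2.2.2| * ‖p.2.1‖ := by
  obtain ⟨h1, h2, h3, h4, h5, h6⟩ := hp
  have hu : ‖ω * p.2.2.1‖ = 1 := by rw [norm_mul, hω, h3, one_mul]
  refine (norm_add_le _ _).trans (add_le_add ?_ ?_)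
  · rw [norm_mul]
    exact mul_le_mul_of_nonneg_right (sum_le_a _ hu a) (norm_nonneg _)
  · rw [norm_mul, norm_mul, norm_pow, hu, one_pow, one_mul, Complex.norm_real, norm_abs_eq_norm,
      Real.norm_eq_abs]

lemma st_fst_le : ‖(st ω a p).1‖ ≤ (a * ‖p.1‖ + |p.2.2.2.2| * ‖p.2.1‖) / (a + |p.2.2.2.2|) := by
  have ha' : (1 : ℝ) ≤ a := by exact_mod_cast ha
  have hpos : 0 < (a : ℝ) + |p.2.2.2.2| := by
    have := abs_nonneg p.2.2.2.2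
    linarith
  unfold st
  simp only
  rw [norm_div, Complex.norm_real, Real.norm_of_nonneg hpos.le]
  exact div_le_div_of_nonneg_right (num_le ω hω a p hp) hpos.le

lemma st_mem : st ω a p ∈ KK := by
  have ha' : (1 : ℝ) ≤ a := by exact_mod_cast ha
  have hab := abs_nonneg p.2.2.2.2
  have hpos : 0 < (a : ℝ) + |p.2.2.2.2| := by linarith
  have h0 := st_fst_le ω hω a ha p hp
  obtain ⟨h1, h2, h3, h4, h5, h6⟩ := hp
  refine ⟨h0.trans ?_, h1, ?_, h3, ?_, ?_⟩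
  · rw [div_le_one hpos]
    have := mul_le_mul_of_nonneg_left h1 (by linarith : (0 : ℝ) ≤ a)
    have := mul_le_mul_of_nonneg_left h2 hab
    linarith
  · show ‖p.2.2.1 ^ a * p.2.2.2.1‖ = 1
    rw [norm_mul, norm_pow, h3, h4, one_pow, one_mul]
  · show (0 : ℝ) ≤ 1 / (a + |p.2.2.2.2|)
    positivity
  · show (1 : ℝ) / (a + |p.2.2.2.2|) ≤ 1
    rw [div_le_one hpos]
    linarith

/-- equality -/
lemma st_eq (h : 1 ≤ ‖(st ω a p).1‖) : (st ω a p).1 = p.1 ∧ 1 ≤ ‖p.1‖ ∧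
    (2 ≤ a → ω * p.2.2.1 = 1) ∧ (0 < p.2.2.2.2 → (ω * p.2.2.1) ^ a * p.2.1 = p.1) := by
  have ha' : (1 : ℝ) ≤ a := by exact_mod_cast ha
  have ha0 : (0 : ℝ) < a := by linarith
  have hab := abs_nonneg p.2.2.2.2
  have hpos : 0 < (a : ℝ) + |p.2.2.2.2| := by linarith
  have hposc : (((a : ℝ) + |p.2.2.2.2| : ℝ) : ℂ) ≠ 0 := by exact_mod_cast hpos.ne'
  have hst : (st ω a p).1 = ((∑ d ∈ range a, (ω * p.2.2.1) ^ d) * p.1 +
    (ω * p.2.2.1) ^ a * |p.2.2.2.2| * p.2.1) / (a + |p.2.2.2.2| : ℝ) := rfl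
  obtain ⟨h1, h2, h3, h4, h5, h6⟩ := hp
  have hu : ‖ω * p.2.2.1‖ = 1 := by rw [norm_mul, hω, h3, one_mul]
  set u := ω * p.2.2.1 with hudef
  set D := ∑ d ∈ range a, u ^ d with hD
  have hnum : (a : ℝ) + |p.2.2.2.2| ≤ ‖D * p.1 + u ^ a * |p.2.2.2.2| * p.2.1‖ := by
    rw [hst, norm_div, Complex.norm_real, Real.norm_of_nonneg hpos.le, le_div_iff₀ hpos, one_mul] at h
    exact h
  have hsec : ‖u ^ a * (|p.2.2.2.2| : ℝ) * p.2.1‖ ≤ |p.2.2.2.2| := by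
    rw [norm_mul, norm_mul, norm_pow, hu, one_pow, one_mul, Complex.norm_real, norm_abs_eq_norm,
      Real.norm_eq_abs]
    exact mul_le_of_le_one_right hab h2
  have hDx : (a : ℝ) ≤ ‖D‖ * ‖p.1‖ := by
    have := norm_add_le (D * p.1) (u ^ a * |p.2.2.2.2| * p.2.1)
    rw [norm_mul] at this
    linarith
  have hDa : ‖D‖ ≤ a := sum_le_a u hu a
  have hDa' : (a : ℝ) ≤ ‖D‖ := by
    have := mul_le_mul_of_nonneg_left h1 (norm_nonneg D)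
    linarith
  have hu1 : 2 ≤ a → u = 1 := fun h => geo_eq u hu a h hDa'
  have hDeq : D = a := by
    rcases Nat.lt_or_ge a 2 with h' | h'
    · have : a = 1 := by omega
      subst this
      simp [hD]
    · rw [hD, hu1 h']
      simp
  have hx1 : 1 ≤ ‖p.1‖ := by
    have h7 : (a : ℝ) * 1 ≤ a * ‖p.1‖ := by
      rw [mul_one]
      exact hDx.trans (mul_le_mul_of_nonneg_right hDa (norm_nonneg _))
    exact le_of_mul_le_mul_left h7 ha0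
  have hal : 0 < p.2.2.2.2 → u ^ a * p.2.1 = p.1 := by
    intro hρ
    symm
    apply tri_eq p.1 (u ^ a * p.2.1) h1 (by rw [norm_mul, norm_pow, hu, one_pow, one_mul]; exact h2)
      a |p.2.2.2.2| ha0 (abs_pos.2 hρ.ne')
    refine hnum.trans (le_of_eq ?_)
    congr 1
    rw [hDeq]
    push_cast
    ring
  refine ⟨?_, hx1, hu1, hal⟩
  rw [hst, div_eq_iff hposc]
  rcases eq_or_lt_of_le h5 with h7 | h7
  · rw [hDeq, ← h7]
    simp [mul_comm]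
  · rw [hDeq]
    have := hal h7
    calc (a : ℂ) * p.1 + u ^ a * (|p.2.2.2.2| : ℝ) * p.2.1 =
          a * p.1 + (|p.2.2.2.2| : ℝ) * (u ^ a * p.2.1) := by ring
      _ = a * p.1 + (|p.2.2.2.2| : ℝ) * p.1 := by rw [this]
      _ = _ := by push_cast; ring

end Step

/-- four steps -/
noncomputable def st4 (ω : ℂ) (a b c d : ℕ) (p : St) : St := st ω d (st ω c (st ω b (st ω a p)))

/-- in four steps the modulus goes down if `ω ^ c ≠ 1` -/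
lemma st4_lt (ω : ℂ) (hω : ‖ω‖ = 1) (a b c d : ℕ) (ha : 1 ≤ a) (hb : 1 ≤ b) (hc : 1 ≤ c)
    (hd : 1 ≤ d) (hne : ω ^ c ≠ 1) (p : St) (hp : p ∈ KK) : ‖(st4 ω a b c d p).1‖ < 1 := by
  by_contra hcon
  push Not at hcon
  unfold st4 at hcon
  have hω0 : ω ≠ 0 := by
    intro h
    rw [h] at hω
    simp at hω
  set p1 := st ω a p with hp1
  set p2 := st ω b p1 with hp2
  set p3 := st ω c p2 with hp3
  have k1 : p1 ∈ KK := st_mem ω hω a ha p hp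
  have k2 : p2 ∈ KK := st_mem ω hω b hb p1 k1
  have k3 : p3 ∈ KK := st_mem ω hω c hc p2 k2
  obtain ⟨a1, a2, a3, a4⟩ := st_eq ω hω d hd p3 k3 hcon
  obtain ⟨b1, b2, b3, b4⟩ := st_eq ω hω c hc p2 k2 a2
  obtain ⟨c1, c2, c3, c4⟩ := st_eq ω hω b hb p1 k1 b2
  obtain ⟨d1, d2, d3, d4⟩ := st_eq ω hω a ha p hp c2
  -- all the first components are equal
  have r1 : 0 < p1.2.2.2.2 := by
    show (0 : ℝ) < 1 / (a + |p.2.2.2.2|)
    have : (1 : ℝ) ≤ a := by exact_mod_cast ha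
    have := abs_nonneg p.2.2.2.2
    positivity
  have r2 : 0 < p2.2.2.2.2 := by
    show (0 : ℝ) < 1 / (b + |p1.2.2.2.2|)
    have : (1 : ℝ) ≤ b := by exact_mod_cast hb
    have := abs_nonneg p1.2.2.2.2
    positivity
  have r3 : 0 < p3.2.2.2.2 := by
    show (0 : ℝ) < 1 / (c + |p2.2.2.2.2|)
    have : (1 : ℝ) ≤ c := by exact_mod_cast hc
    have := abs_nonneg p2.2.2.2.2
    positivity
  have y1 : p1.2.1 = p.1 := rfl
  have y2 : p2.2.1 = p1.1 := rfl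
  have y3 : p3.2.1 = p2.1 := rfl
  have z2 : p2.2.2.1 = p1.2.2.1 ^ b * p1.2.2.2.1 := rfl
  have z3 : p3.2.2.1 = p2.2.2.1 ^ c * p2.2.2.2.1 := rfl
  have w2 : p2.2.2.2.1 = p1.2.2.1 := rfl
  have e1 : p1.1 = p.1 := d1
  have e2 : p2.1 = p1.1 := c1
  have e3 : p3.1 = p2.1 := b1
  have nz : p.1 ≠ 0 := by
    intro h
    rw [h] at d2
    simp at d2
    linarith
  have one : ∀ (u : ℂ) (n : ℕ), 1 ≤ n → (2 ≤ n → u = 1) → u ^ n * p.1 = p.1 → u = 1 := by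
    intro u n hn h1 h2
    rcases Nat.lt_or_ge n 2 with h | h
    · have : n = 1 := by omega
      subst this
      rw [pow_one] at h2
      exact mul_right_cancel₀ nz (by rw [h2, one_mul])
    · exact h1 h
  have u1 : ω * p1.2.2.1 = 1 := by
    apply one _ b hb c3
    have := c4 r1
    rw [y1, e1] at this
    exact this
  have u2 : ω * p2.2.2.1 = 1 := by
    apply one _ c hc b3
    have := b4 r2
    rw [y2, e2, e1] at this
    exact this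
  have u3 : ω * p3.2.2.1 = 1 := by
    apply one _ d hd a3
    have := a4 r3
    rw [y3, e3, e2, e1] at this
    exact this
  apply hne
  -- z3 = z2 ^ c * z1
  rw [z3, w2] at u3
  have f1 : p1.2.2.1 = ω⁻¹ := (eq_inv_of_mul_eq_one_right u1)
  have f2 : p2.2.2.1 = ω⁻¹ := (eq_inv_of_mul_eq_one_right u2)
  rw [f1, f2] at u3
  have f3 : (ω⁻¹) ^ c = 1 := by
    calc (ω⁻¹) ^ c = ω * ((ω⁻¹) ^ c * ω⁻¹) := by
          field_simp
      _ = 1 := u3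
  rw [inv_pow] at f3
  exact inv_eq_one.1 f3

/-- scaling -/
lemma st_scale (ω : ℂ) (a : ℕ) (c : ℂ) (p : St) :
    st ω a (c * p.1, c * p.2.1, p.2.2) = (c * (st ω a p).1, c * (st ω a p).2.1, (st ω a p).2.2) := by
  unfold st
  simp only
  refine Prod.ext ?_ rfl
  simp only
  ring

lemma st4_scale (ω : ℂ) (a b c d : ℕ) (t : ℂ) (p : St) :
    (st4 ω a b c d (t * p.1, t * p.2.1, p.2.2)).1 = t * (st4 ω a b c d p).1 := by
  unfold st4
  rw [st_scale, st_scale, st_scale, st_scale]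

/-- the contraction for one word -/
lemma word_contr (ω : ℂ) (hω : ‖ω‖ = 1) (a b c d : ℕ) (ha : 1 ≤ a) (hb : 1 ≤ b) (hc : 1 ≤ c)
    (hd : 1 ≤ d) (hne : ω ^ c ≠ 1) : ∃ μ : ℝ, 0 ≤ μ ∧ μ < 1 ∧ ∀ p ∈ KK, ∀ t : ℝ, 0 ≤ t →
      ‖p.1‖ ≤ t → ‖p.2.1‖ ≤ t → ‖(st4 ω a b c d p).1‖ ≤ μ * t := by
  have hcont : Continuous (fun p : St => ‖(st4 ω a b c d p).1‖) := by
    unfold st4
    exact continuous_norm.comp (continuous_fst.comp ((st_cont ω d hd).comp ((st_cont ω c hc).comp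
      ((st_cont ω b hb).comp (st_cont ω a ha)))))
  obtain ⟨p₀, hp₀, hmax⟩ := KK_compact.exists_isMaxOn KK_nonempty hcont.continuousOn
  refine ⟨‖(st4 ω a b c d p₀).1‖, norm_nonneg _, st4_lt ω hω a b c d ha hb hc hd hne p₀ hp₀, ?_⟩
  intro p hp t ht h1 h2
  rcases eq_or_lt_of_le ht with h0 | h0
  · -- t = 0
    rw [← h0] at h1 h2
    have e1 : p.1 = 0 := norm_le_zero_iff.1 h1
    have e2 : p.2.1 = 0 := norm_le_zero_iff.1 h2
    have e3 : p = (0 * p.1, 0 * p.2.1, p.2.2) := by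
      refine Prod.ext ?_ (Prod.ext ?_ rfl)
      · simp [e1]
      · simp [e2]
    rw [e3, st4_scale, ← h0]
    simp
  · have htc : (t : ℂ) ≠ 0 := by exact_mod_cast h0.ne'
    set p' : St := ((t : ℂ)⁻¹ * p.1, (t : ℂ)⁻¹ * p.2.1, p.2.2) with hp'
    have hp'K : p' ∈ KK := by
      obtain ⟨_, _, h3, h4, h5, h6⟩ := hp
      refine ⟨?_, ?_, h3, h4, h5, h6⟩
      · show ‖(t : ℂ)⁻¹ * p.1‖ ≤ 1
        rw [norm_mul, norm_inv, Complex.norm_real, Real.norm_of_nonneg ht, inv_mul_le_iff₀ h0,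
          mul_one]
        exact h1
      · show ‖(t : ℂ)⁻¹ * p.2.1‖ ≤ 1
        rw [norm_mul, norm_inv, Complex.norm_real, Real.norm_of_nonneg ht, inv_mul_le_iff₀ h0,
          mul_one]
        exact h2
    have h3 : ‖(st4 ω a b c d p').1‖ ≤ ‖(st4 ω a b c d p₀).1‖ := hmax hp'K
    rw [hp', st4_scale, norm_mul, norm_inv, Complex.norm_real, Real.norm_of_nonneg ht,
      inv_mul_le_iff₀ h0] at h3
    rw [mul_comm]
    exact h3

/-- the contraction, uniform over the words -/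
lemma all_words (ω : ℂ) (hω : ‖ω‖ = 1) (K : ℕ) : ∃ μ : ℝ, 0 ≤ μ ∧ μ < 1 ∧
    ∀ a b c d : ℕ, 1 ≤ a → a ≤ K → 1 ≤ b → b ≤ K → 1 ≤ c → c ≤ K → 1 ≤ d → d ≤ K → ω ^ c ≠ 1 →
      ∀ p ∈ KK, ∀ t : ℝ, 0 ≤ t → ‖p.1‖ ≤ t → ‖p.2.1‖ ≤ t → ‖(st4 ω a b c d p).1‖ ≤ μ * t := by
  have h : ∀ w : ℕ × ℕ × ℕ × ℕ, ∃ μ : ℝ, 0 ≤ μ ∧ μ < 1 ∧ (1 ≤ w.1 → 1 ≤ w.2.1 → 1 ≤ w.2.2.1 →
      1 ≤ w.2.2.2 → ω ^ w.2.2.1 ≠ 1 → ∀ p ∈ KK, ∀ t : ℝ, 0 ≤ t → ‖p.1‖ ≤ t → ‖p.2.1‖ ≤ t →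
        ‖(st4 ω w.1 w.2.1 w.2.2.1 w.2.2.2 p).1‖ ≤ μ * t) := by
    intro w
    by_cases hw : 1 ≤ w.1 ∧ 1 ≤ w.2.1 ∧ 1 ≤ w.2.2.1 ∧ 1 ≤ w.2.2.2 ∧ ω ^ w.2.2.1 ≠ 1
    · obtain ⟨μ, h1, h2, h3⟩ := word_contr ω hω w.1 w.2.1 w.2.2.1 w.2.2.2 hw.1 hw.2.1 hw.2.2.1
        hw.2.2.2.1 hw.2.2.2.2
      exact ⟨μ, h1, h2, fun _ _ _ _ _ => h3⟩
    · exact ⟨0, le_rfl, by norm_num, fun h1 h2 h3 h4 h5 => absurd ⟨h1, h2, h3, h4, h5⟩ hw⟩
  choose μ h1 h2 h3 using h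
  set S : Finset (ℕ × ℕ × ℕ × ℕ) := range (K + 1) ×ˢ (range (K + 1) ×ˢ (range (K + 1) ×ˢ
    range (K + 1))) with hS
  have hne : S.Nonempty := ⟨(0, 0, 0, 0), by simp [hS]⟩
  refine ⟨S.sup' hne μ, ?_, ?_, ?_⟩
  · exact (h1 (0, 0, 0, 0)).trans (le_sup' μ (by simp [hS]))
  · rw [sup'_lt_iff]
    exact fun w _ => h2 w
  · intro a b c d ha ha' hb hb' hc hc' hd hd' hne' p hp t ht k1 k2
    have hmem : (a, b, c, d) ∈ S := by
      simp only [hS, mem_product, mem_range]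
      omega
    exact (h3 (a, b, c, d) ha hb hc hd hne' p hp t ht k1 k2).trans
      (mul_le_mul_of_nonneg_right (le_sup' μ hmem) ht)

end Pool.Agent.L5helper45.OS
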